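import Mathlib

set_option autoImplicit false

open Module

namespace Pool.Agent.Results.MP_f1e34e_co.BoundedSpaces

universe u v

/-! ### Definitions -/

/-- Tensors of order `d` and format `n` over `F`. -/
abbrev Tensor (F : Type u) {d : ℕ} (n : Fin d → ℕ) : Type u := ((j : Fin d) → Fin (n j)) → F

/-- A slice rank decomposition of the tensor `T`. -/
structure SliceDecomp {F : Type u} [Field F] {d : ℕ} {n : Fin d → ℕ} (T : Tensor F n) where
  /-- the numbers `r_j` of terms in direction `j` -/
  r : Fin d → ℕ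
  /-- the one-variable factors -/
  a : (j : Fin d) → Fin (r j) → (Fin (n j) → F)
  /-- the factors depending on all the coordinates except the `j`-th -/
  b : (j : Fin d) → Fin (r j) → ((l : {l : Fin d // l ≠ j}) → Fin (n l)) → F
  /-- the decomposition identity -/
  eq : ∀ x, T x = ∑ j, ∑ i, a j i (x j) * b j i (fun l => x l)

/-- The length of a decomposition. -/
def SliceDecomp.length {F : Type u} [Field F] {d : ℕ} {n : Fin d → ℕ} {T : Tensor F n}
    (D : SliceDecomp T) : ℕ := ∑ j, D.r j

/-- The slice rank of a tensor. -/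
noncomputable def sliceRank {F : Type u} [Field F] {d : ℕ} {n : Fin d → ℕ}
    (T : Tensor F n) : ℕ := sInf {l | ∃ D : SliceDecomp T, D.length = l}

/-- A decomposition of minimal length. -/
def SliceDecomp.IsMinimal {F : Type u} [Field F] {d : ℕ} {n : Fin d → ℕ} {T : Tensor F n}
    (D : SliceDecomp T) : Prop := D.length = sliceRank T

/-! ### Linear algebra -/

section Core

theorem exists_coords {F : Type u} [Field F] {V : Type v} [AddCommGroup V] [Module F V]
    [FiniteDimensional F V] (W : Submodule F V) :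
    ∃ (e : Fin (finrank F (V ⧸ W)) → V) (l : Fin (finrank F (V ⧸ W)) → (V →ₗ[F] F)),
      ∀ v, v - ∑ i, l i v • e i ∈ W := by
  let b := finBasis F (V ⧸ W)
  choose e he using fun i => Submodule.mkQ_surjective W (b i)
  refine ⟨e, fun i => (b.coord i).comp W.mkQ, fun v => ?_⟩
  have h1 : W.mkQ (v - ∑ i, ((b.coord i).comp W.mkQ) v • e i) = 0 := by
    rw [map_sub, map_sum, sub_eq_zero]
    conv_lhs => rw [← b.sum_repr (W.mkQ v)]
    refine Finset.sum_congr rfl fun i _ => ?_
    rw [map_smul, he]
    simp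
  exact (Submodule.Quotient.mk_eq_zero W).1 h1

theorem codim_inf {F : Type u} [Field F] {V : Type v} [AddCommGroup V] [Module F V]
    [FiniteDimensional F V] (A B : Submodule F V) :
    finrank F (V ⧸ (A ⊓ B)) ≤ finrank F (V ⧸ A) + finrank F (V ⧸ B) := by
  have h1 := Submodule.finrank_quotient_add_finrank A
  have h2 := Submodule.finrank_quotient_add_finrank B
  have h3 := Submodule.finrank_quotient_add_finrank (A ⊓ B)
  have h4 := Submodule.finrank_sup_add_finrank_inf_eq A B
  have h5 := Submodule.finrank_le (A ⊔ B)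
  omega

theorem codim_iInf {F : Type u} [Field F] {V : Type v} [AddCommGroup V] [Module F V]
    [FiniteDimensional F V] {κ : Type*} [Fintype κ] (A : Submodule F V) (U : κ → Submodule F V)
    (k : ℕ) (hU : ∀ i, finrank F (V ⧸ U i) ≤ k) :
    finrank F (V ⧸ (A ⊓ ⨅ i, U i)) ≤ finrank F (V ⧸ A) + Fintype.card κ * k := by
  classical
  have key : ∀ s : Finset κ, finrank F (V ⧸ (A ⊓ ⨅ i ∈ s, U i)) ≤
      finrank F (V ⧸ A) + s.card * k := by
    intro s
    induction s using Finset.induction_on with
    | empty =>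
      have h1 : A ⊓ ⨅ i ∈ (∅ : Finset κ), U i = A := by simp
      rw [h1]
      simp
    | insert a s ha ih =>
      have h1 : A ⊓ ⨅ i ∈ insert a s, U i = (A ⊓ ⨅ i ∈ s, U i) ⊓ U a := by
        rw [Finset.iInf_insert]
        rw [inf_comm (U a), inf_assoc]
      rw [h1, Finset.card_insert_of_notMem ha]
      calc _ ≤ _ := codim_inf _ _
        _ ≤ (finrank F (V ⧸ A) + s.card * k) + k := Nat.add_le_add ih (hU a)
        _ = _ := by ring
  have h3 := key Finset.univ
  have h2 : (⨅ i ∈ (Finset.univ : Finset κ), U i) = ⨅ i, U i := by simp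
  rw [h2] at h3
  exact h3

variable {ι : Type} [Fintype ι] [DecidableEq ι]

theorem piecewise_eq {F : Type u} [Field F] {V : ι → Type v} [∀ j, AddCommGroup (V j)]
    [∀ j, Module F (V j)] (T : MultilinearMap F V F) (W : ∀ j, Submodule F (V j))
    (K : Finset ι) (u p w : ∀ j, V j) (hp : ∀ j, p j - u j ∈ W j) (hw : ∀ j, w j ∈ W j)
    (hs : ∀ s, s ⊂ K → ∀ w' : ∀ j, V j, (∀ j, w' j ∈ W j) → T (s.piecewise u w') = 0) :
    T (K.piecewise p w) = T (K.piecewise u w) := by
  classical
  set w0 : ∀ j, V j := fun j => p j - u j with hw0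
  have h1 : K.piecewise p w = K.piecewise u 0 + K.piecewise w0 w := by
    funext j
    by_cases hj : j ∈ K
    · simp [hj, hw0]
    · simp [hj]
  rw [h1, MultilinearMap.map_add_univ, Finset.sum_eq_single K]
  · congr 1
    funext j
    by_cases hj : j ∈ K
    · simp [hj]
    · simp [hj]
  · intro s _ hsK
    by_cases hsub : s ⊆ K
    · have h2 : s.piecewise (K.piecewise u 0) (K.piecewise w0 w) =
          s.piecewise u (K.piecewise w0 w) := by
        funext j
        by_cases hj : j ∈ s
        · simp [hj, hsub hj]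
        · simp [hj]
      rw [h2]
      refine hs s (lt_of_le_of_ne hsub hsK) _ fun j => ?_
      by_cases hj : j ∈ K
      · simpa [hj, hw0] using hp j
      · simpa [hj] using hw j
    · obtain ⟨j, hj, hjK⟩ := Finset.not_subset.1 hsub
      refine T.map_coord_zero j ?_
      simp [hj, hjK]
  · intro h
    exact absurd (Finset.mem_univ K) h

theorem step_one {F : Type u} [Field F] {V : ι → Type v} [∀ j, AddCommGroup (V j)]
    [∀ j, Module F (V j)] [∀ j, FiniteDimensional F (V j)] (T : MultilinearMap F V F)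
    (𝒟 : Set (∀ j, Submodule F (V j))) (k c : ℕ)
    (hk : ∀ U ∈ 𝒟, ∀ j, finrank F (V j ⧸ U j) ≤ k)
    (hT : ∀ U ∈ 𝒟, ∀ u : ∀ j, V j, (∀ j, u j ∈ U j) → T u = 0)
    (W : ∀ j, Submodule F (V j)) (hW : ∀ j, finrank F (V j ⧸ W j) ≤ c) (K : Finset ι)
    (hs : ∀ s, s ⊂ K → ∀ U ∈ 𝒟, ∀ u w : ∀ j, V j, (∀ j, u j ∈ U j) → (∀ j, w j ∈ W j) →
      T (s.piecewise u w) = 0) :
    ∃ W' : ∀ j, Submodule F (V j), (∀ j, W' j ≤ W j) ∧
      (∀ j, finrank F (V j ⧸ W' j) ≤ c + (c + 1) ^ Fintype.card ι * k) ∧
      ∀ U ∈ 𝒟, ∀ u w : ∀ j, V j, (∀ j, u j ∈ U j) → (∀ j, w j ∈ W' j) →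
        T (K.piecewise u w) = 0 := by
  classical
  choose e l hel using fun j => exists_coords (W j)
  let R := ∀ j, Option (Fin (finrank F (V j ⧸ W j)))
  let Wt := {w : ∀ j, V j // ∀ j, w j ∈ W j}
  let h : ∀ j, V j → Option (Fin (finrank F (V j ⧸ W j))) → V j := fun j wj o =>
    if j ∈ K then o.elim 0 (fun i => e j i) else o.elim wj (fun _ => 0)
  let t : R → (Wt → F) := fun r w => T fun j => h j (w.1 j) (r j)
  let f : (∀ j, V j) → (Wt → F) := fun u w => T (K.piecewise u w.1)
  -- every `f u` lies in the span of the `t r`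
  have hspan : ∀ U ∈ 𝒟, ∀ u : ∀ j, V j, (∀ j, u j ∈ U j) →
      f u ∈ Submodule.span F (Set.range t) := by
    intro U hU u hu
    let cf : ∀ j, Option (Fin (finrank F (V j ⧸ W j))) → F := fun j o =>
      if j ∈ K then o.elim 1 (fun i => l j i (u j)) else 1
    have hf : f u = ∑ r : R, (∏ j, cf j (r j)) • t r := by
      funext w
      have h1 : f u w = T (K.piecewise (fun j => ∑ i, l j i (u j) • e j i) w.1) := by
        refine (piecewise_eq T W K u _ w.1 (fun j => ?_) w.2 ?_).symm
        · have := (W j).neg_mem (hel j (u j))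
          simpa using this
        · intro s hsK w' hw'
          exact hs s hsK U hU u w' hu hw'
      have h2 : (K.piecewise (fun j => ∑ i, l j i (u j) • e j i) w.1) =
          fun j => ∑ o : Option (Fin (finrank F (V j ⧸ W j))), cf j o • h j (w.1 j) o := by
        funext j
        rw [Fintype.sum_option]
        by_cases hj : j ∈ K
        · simp [hj, h, cf]
        · simp [hj, h, cf]
      rw [h1, h2, MultilinearMap.map_sum, Finset.sum_apply]
      refine Finset.sum_congr rfl fun r _ => ?_
      rw [MultilinearMap.map_smul_univ]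
      rfl
    rw [hf]
    exact Submodule.sum_mem _ fun r _ => Submodule.smul_mem _ _ (Submodule.subset_span ⟨r, rfl⟩)
  let G : Set (Wt → F) := {g | ∃ U ∈ 𝒟, ∃ u : ∀ j, V j, (∀ j, u j ∈ U j) ∧ f u = g}
  obtain ⟨b, hbG, hbspan, hbli⟩ := exists_linearIndependent F G
  have hbt : Set.range (Subtype.val : b → (Wt → F)) ≤ Submodule.span F (Set.range t) := by
    rintro _ ⟨g, rfl⟩
    obtain ⟨U, hU, u, hu, hg⟩ := hbG g.2
    rw [← hg]
    exact hspan U hU u hu
  have : Finite b := LinearIndependent.finite_of_le_span_finite _ hbli (Set.range t) hbt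
  have : Fintype b := Fintype.ofFinite b
  have : Fintype (Set.range t) := Fintype.ofFinite _
  have hcard : Fintype.card b ≤ (c + 1) ^ Fintype.card ι := by
    have h1 := linearIndependent_le_span' _ hbli (Set.range t) hbt
    rw [Cardinal.mk_fintype, Nat.cast_le] at h1
    have h2 : Fintype.card (Set.range t) ≤ Fintype.card R := by
      rw [← Set.toFinset_card]
      have h3 : (Set.range t).toFinset = Finset.univ.image t := by
        ext; simp
      rw [h3]
      exact Finset.card_image_le.trans (by simp)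
    have h3 : Fintype.card R ≤ (c + 1) ^ Fintype.card ι := by
      show Fintype.card (∀ j, Option (Fin (finrank F (V j ⧸ W j)))) ≤ _
      rw [Fintype.card_pi]
      calc ∏ j, Fintype.card (Option (Fin (finrank F (V j ⧸ W j)))) ≤ ∏ _j : ι, (c + 1) := by
            refine Finset.prod_le_prod' fun j _ => ?_
            rw [Fintype.card_option, Fintype.card_fin]
            exact Nat.add_le_add_right (hW j) 1
        _ = (c + 1) ^ Fintype.card ι := by simp
    exact (h1.trans h2).trans h3
  have hG : ∀ g : b, ∃ U, U ∈ 𝒟 ∧ ∃ u : ∀ j, V j, (∀ j, u j ∈ U j) ∧ f u = g.1 :=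
    fun g => hbG g.2
  choose Uf hUf uf huf hfu using hG
  refine ⟨fun j => W j ⊓ ⨅ g : b, Uf g j, fun j => inf_le_left, fun j => ?_, ?_⟩
  · calc _ ≤ finrank F (V j ⧸ W j) + Fintype.card b * k :=
          codim_iInf (W j) (fun g : b => Uf g j) k fun g => hk _ (hUf g) j
      _ ≤ c + (c + 1) ^ Fintype.card ι * k :=
          Nat.add_le_add (hW j) (Nat.mul_le_mul_right k hcard)
  · intro U hU u w hu hw
    let w' : Wt := ⟨w, fun j => (hw j).1⟩
    let ev : (Wt → F) →ₗ[F] F := LinearMap.proj w'
    have h1 : Submodule.span F b ≤ LinearMap.ker ev := by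
      rw [Submodule.span_le]
      intro g hg
      have h2 : g w' = 0 := by
        have h4 : f (uf ⟨g, hg⟩) = g := hfu ⟨g, hg⟩
        rw [← h4]
        refine hT _ (hUf ⟨g, hg⟩) _ fun j => ?_
        by_cases hj : j ∈ K
        · simpa [hj] using huf ⟨g, hg⟩ j
        · have h3 : w j ∈ ⨅ g : b, Uf g j := (hw j).2
          simpa [hj] using (Submodule.mem_iInf _).1 h3 ⟨g, hg⟩
      exact h2
    have h2 : f u ∈ Submodule.span F b := by
      rw [hbspan]
      exact Submodule.subset_span ⟨U, hU, u, hu, rfl⟩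
    exact h1 h2

/-- The induction on the number of coordinates which are not restricted to `W`. -/
theorem core (k : ℕ) : ∀ m : ℕ, ∃ c : ℕ, ∀ (F : Type u) [Field F] (V : ι → Type v)
    [∀ j, AddCommGroup (V j)] [∀ j, Module F (V j)] [∀ j, FiniteDimensional F (V j)]
    (T : MultilinearMap F V F) (𝒟 : Set (∀ j, Submodule F (V j))),
    (∀ U ∈ 𝒟, ∀ j, finrank F (V j ⧸ U j) ≤ k) →
    (∀ U ∈ 𝒟, ∀ u : ∀ j, V j, (∀ j, u j ∈ U j) → T u = 0) →
    ∃ W : ∀ j, Submodule F (V j), (∀ j, finrank F (V j ⧸ W j) ≤ c) ∧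
      ∀ s : Finset ι, s.card < m → ∀ U ∈ 𝒟, ∀ u w : ∀ j, V j,
        (∀ j, u j ∈ U j) → (∀ j, w j ∈ W j) → T (s.piecewise u w) = 0 := by
  classical
  intro m
  induction m with
  | zero =>
    refine ⟨0, ?_⟩
    intro F _ V _ _ _ T 𝒟 _ _
    refine ⟨fun j => ⊤, fun j => ?_, fun s hs => absurd hs (Nat.not_lt_zero _)⟩
    have h1 := Submodule.finrank_quotient_add_finrank (⊤ : Submodule F (V j))
    rw [finrank_top] at h1
    show finrank F (V j ⧸ (⊤ : Submodule F (V j))) ≤ 0
    omega
  | succ m ih =>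
    obtain ⟨c, hc⟩ := ih
    refine ⟨c + Fintype.card (Finset ι) * (c + (c + 1) ^ Fintype.card ι * k), ?_⟩
    intro F _ V _ _ _ T 𝒟 hk hT
    obtain ⟨W, hW, hWs⟩ := hc F V T 𝒟 hk hT
    have hK : ∀ K : Finset ι, ∃ W' : ∀ j, Submodule F (V j), (∀ j, W' j ≤ W j) ∧
        (∀ j, finrank F (V j ⧸ W' j) ≤ c + (c + 1) ^ Fintype.card ι * k) ∧
        (K.card = m → ∀ U ∈ 𝒟, ∀ u w : ∀ j, V j, (∀ j, u j ∈ U j) → (∀ j, w j ∈ W' j) →
          T (K.piecewise u w) = 0) := by
      intro K
      by_cases hm : K.card = m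
      · obtain ⟨W', h1, h2, h3⟩ := step_one T 𝒟 k c hk hT W hW K fun s hs U hU u w hu hw =>
          hWs s (by rw [← hm]; exact Finset.card_lt_card hs) U hU u w hu hw
        exact ⟨W', h1, h2, fun _ => h3⟩
      · exact ⟨W, fun j => le_refl _, fun j => (hW j).trans (Nat.le_add_right _ _),
          fun h => absurd h hm⟩
    choose W' hW'le hW'c hW' using hK
    refine ⟨fun j => W j ⊓ ⨅ K : Finset ι, W' K j, fun j => ?_, ?_⟩
    · exact (codim_iInf (W j) (fun K => W' K j) _ fun K => hW'c K j).trans
        (Nat.add_le_add_right (hW j) _)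
    · intro s hs U hU u w hu hw
      rcases Nat.lt_succ_iff_lt_or_eq.1 hs with h | h
      · exact hWs s h U hU u w hu fun j => (hw j).1
      · refine hW' s h U hU u w hu fun j => ?_
        have h3 : w j ∈ ⨅ K : Finset ι, W' K j := (hw j).2
        exact (Submodule.mem_iInf _).1 h3 s

/-- The core statement: a single tuple of subspaces `W` of bounded codimension such that `T`
still vanishes on `∏ (U_j + W_j)` for every `U` in the family. -/
theorem core_vanish (k : ℕ) : ∃ c : ℕ, ∀ (F : Type u) [Field F] (V : ι → Type v)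
    [∀ j, AddCommGroup (V j)] [∀ j, Module F (V j)] [∀ j, FiniteDimensional F (V j)]
    (T : MultilinearMap F V F) (𝒟 : Set (∀ j, Submodule F (V j))),
    (∀ U ∈ 𝒟, ∀ j, finrank F (V j ⧸ U j) ≤ k) →
    (∀ U ∈ 𝒟, ∀ u : ∀ j, V j, (∀ j, u j ∈ U j) → T u = 0) →
    ∃ W : ∀ j, Submodule F (V j), (∀ j, finrank F (V j ⧸ W j) ≤ c) ∧
      ∀ U ∈ 𝒟, ∀ v : ∀ j, V j, (∀ j, v j ∈ U j ⊔ W j) → T v = 0 := by
  classical
  obtain ⟨c, hc⟩ := core (ι := ι) k (Fintype.card ι + 1)
  refine ⟨c, ?_⟩
  intro F _ V _ _ _ T 𝒟 hk hT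
  obtain ⟨W, hW, hWs⟩ := hc F V T 𝒟 hk hT
  refine ⟨W, hW, ?_⟩
  intro U hU v hv
  choose u hu w hw huw using fun j => Submodule.mem_sup.1 (hv j)
  have h1 : v = u + w := by
    funext j
    exact (huw j).symm
  rw [h1, MultilinearMap.map_add_univ]
  exact Finset.sum_eq_zero fun s _ =>
    hWs s (Nat.lt_succ_of_le (Finset.card_le_univ s)) U hU u w hu hw

end Core

/-! ### Tensors and multilinear forms -/

section Tensors

variable {F : Type u} [Field F] {d : ℕ} {n : Fin d → ℕ}

/-- The multilinear form of a tensor. -/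
noncomputable def form (T : Tensor F n) : MultilinearMap F (fun j => Fin (n j) → F) F :=
  ∑ x : (j : Fin d) → Fin (n j), T x • (MultilinearMap.mkPiAlgebra F (Fin d) F).compLinearMap
    (fun j => (LinearMap.proj (x j) : (Fin (n j) → F) →ₗ[F] F))

theorem form_apply (T : Tensor F n) (v : ∀ j, Fin (n j) → F) :
    form T v = ∑ x, T x * ∏ j, v j (x j) := by
  simp [form]

theorem form_single (T : Tensor F n) (x : (j : Fin d) → Fin (n j)) :
    form T (fun j => Pi.single (x j) 1) = T x := by
  rw [form_apply, Finset.sum_eq_single x]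
  · simp
  · intro y _ hy
    obtain ⟨j, hj⟩ := Function.ne_iff.1 hy
    rw [Finset.prod_eq_zero (Finset.mem_univ j) (by simp [hj]), mul_zero]
  · intro h
    exact absurd (Finset.mem_univ x) h

theorem form_vanish {T : Tensor F n} (D : SliceDecomp T) (v : ∀ j, Fin (n j) → F)
    (hv : ∀ j i, ∑ t, D.a j i t * v j t = 0) : form T v = 0 := by
  rw [form_apply]
  have h1 : ∀ x : (j : Fin d) → Fin (n j), T x * ∏ l, v l (x l) =
      ∑ j, ∑ i, D.a j i (x j) * D.b j i (fun l => x l) * ∏ l, v l (x l) := by
    intro x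
    rw [D.eq, Finset.sum_mul]
    exact Finset.sum_congr rfl fun j _ => Finset.sum_mul _ _ _
  rw [Finset.sum_congr rfl fun x _ => h1 x, Finset.sum_comm]
  refine Finset.sum_eq_zero fun j _ => ?_
  rw [Finset.sum_comm]
  refine Finset.sum_eq_zero fun i _ => ?_
  let g : Fin (n j) × ((l : {l : Fin d // l ≠ j}) → Fin (n l)) → F := fun p =>
    D.b j i p.2 * (∏ l : {l : Fin d // l ≠ j}, v l (p.2 l)) * (D.a j i p.1 * v j p.1)
  rw [Fintype.sum_equiv (Equiv.piSplitAt j fun l => Fin (n l)) _ g, Fintype.sum_prod_type_right]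
  · refine Finset.sum_eq_zero fun y _ => ?_
    show ∑ t, D.b j i y * (∏ l : {l : Fin d // l ≠ j}, v l (y l)) * (D.a j i t * v j t) = 0
    rw [← Finset.mul_sum, hv, mul_zero]
  · intro x
    show _ = D.b j i (fun l => x l) * (∏ l : {l : Fin d // l ≠ j}, v l (x l)) *
      (D.a j i (x j) * v j (x j))
    rw [Fintype.prod_eq_mul_prod_subtype_ne (fun l => v l (x l)) j]
    ring

theorem lin_sum {m : ℕ} {M : Type*} [AddCommGroup M] [Module F M] (L : (Fin m → F) →ₗ[F] M)
    (w : Fin m → F) : L w = ∑ t, w t • L (Pi.single t 1) := by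
  rw [LinearMap.pi_apply_eq_sum_univ L w]
  refine Finset.sum_congr rfl fun t _ => ?_
  congr 2
  funext s
  rw [Pi.single_apply]
  by_cases h : t = s
  · simp [h]
  · simp [h, Ne.symm h]

/-- If the form of `T` vanishes on the product of the annihilators of the `B j`, then `T` has a
slice rank decomposition with `dim (B j)` terms in direction `j`. -/
theorem exists_decomp (T : Tensor F n) (B : ∀ j, Submodule F (Fin (n j) → F))
    (hB : ∀ v : ∀ j, Fin (n j) → F, (∀ j, ∀ a ∈ B j, ∑ t, a t * v j t = 0) → form T v = 0) :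
    ∃ D : SliceDecomp T, ∀ j, D.r j = finrank F (B j) := by
  classical
  choose q hq using fun j => LinearMap.exists_leftInverse_of_injective (B j).subtype
    (Submodule.ker_subtype _)
  have hq' : ∀ j (a : B j), q j (a : Fin (n j) → F) = a := fun j a =>
    LinearMap.congr_fun (hq j) a
  let th : ∀ j, Fin (n j) → (Fin (n j) → F) := fun j t => Pi.single t 1
  let ph : ∀ j, Fin (n j) → (Fin (n j) → F) := fun j t =>
    fun t' => (q j (Pi.single t' 1) : Fin (n j) → F) t
  let ps : ∀ j, Fin (n j) → (Fin (n j) → F) := fun j t => th j t - ph j t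
  have hps : ∀ j t, ∀ a ∈ B j, ∑ t', a t' * ps j t t' = 0 := by
    intro j t a ha
    have h1 : (q j a : Fin (n j) → F) t = ∑ t', a t' * ph j t t' := by
      rw [lin_sum (q j) a]
      simp [ph]
    have h2 : (q j a : Fin (n j) → F) = a := congrArg Subtype.val (hq' j ⟨a, ha⟩)
    have h3 : ∑ t', a t' * ps j t t' = a t - ∑ t', a t' * ph j t t' := by
      simp [ps, th, mul_sub, Finset.sum_sub_distrib, Pi.single_apply]
    rw [h3, ← h1, h2, sub_self]
  let base : ∀ j, ((l : {l : Fin d // l ≠ j}) → Fin (n l)) → ∀ l, Fin (n l) → F :=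
    fun j y l => if h : l = j then 0 else if l < j then th l (y ⟨l, h⟩) else ps l (y ⟨l, h⟩)
  let z : ∀ j, ((l : {l : Fin d // l ≠ j}) → Fin (n l)) → (Fin (n j) → F) :=
    fun j y t' => form T (Function.update (base j y) j (Pi.single t' 1))
  have hz : ∀ j (y : (l : {l : Fin d // l ≠ j}) → Fin (n l)) (t : Fin (n j)),
      form T (Function.update (base j y) j (ph j t)) = (q j (z j y) : Fin (n j) → F) t := by
    intro j y t
    have h1 := lin_sum ((form T).toLinearMap (base j y) j) (ph j t)
    simp only [MultilinearMap.toLinearMap_apply] at h1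
    rw [h1, lin_sum (q j) (z j y)]
    simp only [ph, z, smul_eq_mul, AddSubmonoidClass.coe_finsetSum, Submodule.coe_smul,
      Finset.sum_apply, Pi.smul_apply]
    exact Finset.sum_congr rfl fun t' _ => mul_comm _ _
  refine ⟨⟨fun j => finrank F (B j), fun j i => (finBasis F (B j) i : Fin (n j) → F),
    fun j i y => (finBasis F (B j)).repr (q j (z j y)) i, ?_⟩, fun j => rfl⟩
  intro x
  have h1 : T x = form T (fun j => th j (x j)) - form T (fun j => ps j (x j)) := by
    rw [hB (fun j => ps j (x j)) (fun j => hps j (x j)), sub_zero]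
    exact (form_single T x).symm
  have h2 := MultilinearMap.map_piecewise_sub_map_piecewise (form T) (fun j => th j (x j))
    (fun j => ps j (x j)) 0 Finset.univ
  rw [Finset.piecewise_univ, Finset.piecewise_univ] at h2
  rw [h1, h2]
  refine Finset.sum_congr rfl fun j _ => ?_
  have h3 : (fun l => if l ∈ (Finset.univ : Finset (Fin d)) then
      if l < j then th l (x l) else if l = j then th l (x l) - ps l (x l) else ps l (x l)
      else (0 : ∀ l, Fin (n l) → F) l) =
      Function.update (base j (fun l => x l)) j (ph j (x j)) := by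
    funext l
    by_cases hl : l = j
    · subst hl
      simp [ps]
    · rw [Function.update_of_ne hl]
      simp [base, hl]
  rw [h3]
  refine (hz j (fun l => x l) (x j)).trans ?_
  have h4 := (finBasis F (B j)).sum_repr (q j (z j fun l => x l))
  conv_lhs => rw [← h4]
  simp only [AddSubmonoidClass.coe_finsetSum, Submodule.coe_smul, Finset.sum_apply,
    Pi.smul_apply, smul_eq_mul]
  exact Finset.sum_congr rfl fun i _ => mul_comm _ _

variable (F) in
/-- the dot product as a bilinear form -/
noncomputable def bil (m : ℕ) : LinearMap.BilinForm F (Fin m → F) := dotProductBilin F F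

theorem dot_nondeg (m : ℕ) : (bil F m).Nondegenerate := by
  constructor
  · intro v hv
    funext i
    have h1 : v ⬝ᵥ Pi.single i 1 = 0 := hv (Pi.single i 1)
    simpa using h1
  · intro v hv
    funext i
    have h1 : Pi.single i 1 ⬝ᵥ v = 0 := hv (Pi.single i 1)
    simpa using h1

theorem dot_refl (m : ℕ) : LinearMap.BilinForm.IsRefl (bil F m) := by
  intro x y h
  have h1 : x ⬝ᵥ y = 0 := h
  show y ⬝ᵥ x = 0
  rw [dotProduct_comm, h1]

/-- the annihilator with respect to the dot product -/
noncomputable def perp {m : ℕ} (S : Submodule F (Fin m → F)) : Submodule F (Fin m → F) :=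
  LinearMap.BilinForm.orthogonal (bil F m) S

theorem mem_perp {m : ℕ} {S : Submodule F (Fin m → F)} {v : Fin m → F} :
    v ∈ perp S ↔ ∀ a ∈ S, ∑ t, a t * v t = 0 := Iff.rfl

theorem perp_anti {m : ℕ} {S W : Submodule F (Fin m → F)} (h : S ≤ W) : perp W ≤ perp S :=
  LinearMap.BilinForm.orthogonal_le h

theorem perp_perp {m : ℕ} (S : Submodule F (Fin m → F)) : perp (perp S) = S :=
  LinearMap.BilinForm.orthogonal_orthogonal (dot_nondeg m) (dot_refl m) S

theorem finrank_perp {m : ℕ} (S : Submodule F (Fin m → F)) :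
    finrank F (perp S) + finrank F S = m := by
  have h1 : finrank F (perp S) = finrank F (Fin m → F) - finrank F S :=
    LinearMap.BilinForm.finrank_orthogonal (dot_nondeg (F := F) m) S
  have h2 := Submodule.finrank_le S
  have h3 : finrank F (Fin m → F) = m := by simp
  omega

theorem perp_inf {m : ℕ} (S W : Submodule F (Fin m → F)) :
    perp (S ⊓ perp W) ≤ perp S ⊔ W := by
  have h1 : perp (perp S ⊔ W) ≤ S ⊓ perp W := by
    refine le_inf ?_ ?_
    · calc perp (perp S ⊔ W) ≤ perp (perp S) := perp_anti le_sup_left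
        _ = S := perp_perp S
    · exact perp_anti le_sup_right
  calc perp (S ⊓ perp W) ≤ perp (perp (perp S ⊔ W)) := perp_anti h1
    _ = perp S ⊔ W := perp_perp _

end Tensors

/-- **Theorem.** For all `d` and `k` there is a constant `C` such that for every tensor `T` of
order `d` and slice rank `k` over any field there are subspaces `A j` of dimension at most `C`
which contain the spans of the one-variable factors of all the minimal slice rank
decompositions of `T`. -/
theorem result : ∀ d k : ℕ, ∃ C : ℕ, 0 < C ∧ ∀ (F : Type u) [Field F] (n : Fin d → ℕ)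
    (T : Tensor F n), sliceRank T = k →
      ∃ A : (j : Fin d) → Submodule F (Fin (n j) → F), (∀ j, finrank F (A j) ≤ C) ∧
        ∀ D : SliceDecomp T, D.IsMinimal →
          ∀ j, Submodule.span F (Set.range (D.a j)) ≤ A j := by
  classical
  intro d k
  obtain ⟨c, hc⟩ := core_vanish.{u, u} (ι := Fin d) k
  refine ⟨c + 1, Nat.succ_pos c, ?_⟩
  intro F _ n T hT
  let 𝒟 : Set (∀ j, Submodule F (Fin (n j) → F)) :=
    {U | ∃ D : SliceDecomp T, D.IsMinimal ∧ U = fun j =>
      perp (Submodule.span F (Set.range (D.a j)))}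
  have hr : ∀ D : SliceDecomp T, ∀ j,
      finrank F (Submodule.span F (Set.range (D.a j))) ≤ D.r j := by
    intro D j
    have h1 := finrank_range_le_card (R := F) (D.a j)
    simpa [Set.finrank] using h1
  have hcod : ∀ {m : ℕ} (S : Submodule F (Fin m → F)),
      finrank F ((Fin m → F) ⧸ perp S) = finrank F S := by
    intro m S
    have h1 := Submodule.finrank_quotient_add_finrank (perp S)
    have h2 := finrank_perp S
    have h3 : finrank F (Fin m → F) = m := by simp
    omega
  obtain ⟨W, hW, hvan⟩ := hc F (fun j => Fin (n j) → F) (form T) 𝒟 (by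
    rintro U ⟨D, hD, rfl⟩ j
    show finrank F ((Fin (n j) → F) ⧸ perp (Submodule.span F (Set.range (D.a j)))) ≤ k
    rw [hcod]
    refine (hr D j).trans ?_
    have h1 : D.length = k := by rw [← hT]; exact hD
    rw [← h1]
    exact Finset.single_le_sum (f := D.r) (fun _ _ => Nat.zero_le _) (Finset.mem_univ j)) (by
    rintro U ⟨D, hD, rfl⟩ u hu
    refine form_vanish D u fun j i => ?_
    exact mem_perp.1 (hu j) _ (Submodule.subset_span ⟨i, rfl⟩))
  refine ⟨fun j => perp (W j), fun j => ?_, ?_⟩
  · have h1 := Submodule.finrank_quotient_add_finrank (W j)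
    have h2 := finrank_perp (W j)
    have h3 : finrank F (Fin (n j) → F) = n j := by simp
    have h4 := hW j
    show finrank F (perp (W j)) ≤ c + 1
    omega
  · intro D hD j
    by_contra hcon
    let S : ∀ l, Submodule F (Fin (n l) → F) := fun l => Submodule.span F (Set.range (D.a l))
    obtain ⟨D', hD'⟩ := exists_decomp T (fun l => S l ⊓ perp (W l)) (by
      intro v hv
      refine hvan _ ⟨D, hD, rfl⟩ v fun l => ?_
      exact perp_inf _ _ (mem_perp.2 (hv l)))
    have h1 : D'.length < D.length := by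
      unfold SliceDecomp.length
      refine Finset.sum_lt_sum (fun l _ => ?_) ⟨j, Finset.mem_univ j, ?_⟩
      · rw [hD' l]
        exact (Submodule.finrank_mono inf_le_left).trans (hr D l)
      · rw [hD' j]
        refine lt_of_lt_of_le (Submodule.finrank_lt_finrank_of_lt ?_) (hr D j)
        refine lt_of_le_of_ne inf_le_left fun h => hcon ?_
        exact inf_eq_left.1 h
    have h2 : sliceRank T ≤ D'.length := Nat.sInf_le ⟨D', rfl⟩
    have h3 : D.length = sliceRank T := hD
    omega

end Pool.Agent.Results.MP_f1e34e_co.BoundedSpaces
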